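import Mathlib

/-! The partition monoid and the free idempotent generated semigroup over its idempotents. -/

set_option autoImplicit false
set_option warn.classDefReducibility false

namespace Pool.Agent.Work.MP_5b5e81_al.Hedge

/-- Set partitions of the points `(false, i)` (upper row) and `(true, i)` (lower row). -/
abbrev Part (n : ℕ) : Type := Setoid (Bool × Fin n)

/-- Put the upper row on row `k` and the lower row on row `l` of a three-row diagram. -/
def row {n : ℕ} (k l : Fin 3) (u : Bool × Fin n) : Fin 3 × Fin n :=
  (if u.1 = true then l else k, u.2)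

/-- The product in the partition monoid: `α` on the rows `0, 1`, `β` on the rows `1, 2`, connected
components, restricted to the rows `0, 2`. -/
def pmul {n : ℕ} (α β : Part n) : Part n :=
  Setoid.comap (row 0 2) (Relation.EqvGen.setoid fun p q =>
    (∃ u v, α u v ∧ p = row 0 1 u ∧ q = row 0 1 v) ∨ (∃ u v, β u v ∧ p = row 1 2 u ∧ q = row 1 2 v))

/-- The idempotents of the partition monoid. -/
abbrev Idem (n : ℕ) : Type := {e : Part n // pmul e e = e}

/-- The defining relations `e · f = ef` for basic pairs `(e, f)`. -/
def BasicRel (n : ℕ) (x y : FreeSemigroup (Idem n)) : Prop :=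
  ∃ e f g : Idem n, (pmul e.1 f.1 = e.1 ∨ pmul e.1 f.1 = f.1 ∨ pmul f.1 e.1 = e.1 ∨
    pmul f.1 e.1 = f.1) ∧ pmul e.1 f.1 = g.1 ∧
      x = FreeSemigroup.of e * FreeSemigroup.of f ∧ y = FreeSemigroup.of g

/-- The free idempotent generated semigroup over the idempotents of the partition monoid. -/
abbrev IG (n : ℕ) : Type := (conGen (BasicRel n)).Quotient

end Pool.Agent.Work.MP_5b5e81_al.Hedge
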