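import Mathlib
import Pool.Agent.Work.MP_5b5e81_al.Final
import Pool.Agent.Work.MP_5b5e81_al.Hedge.Defs

-- merged part: Pool.Agent.Work.MP_5b5e81_al.Hedge.Rec
section
/-! Recognisable languages. -/

set_option autoImplicit false

namespace Pool.Agent.Work.MP_5b5e81_al.Hedge

variable {A : Type} {L L' : Set (List A)}

/-- left quotient -/
def lq (L : Set (List A)) (x : List A) : Set (List A) := {y | x ++ y ∈ L}

/-- finitely many left quotients -/
def Rec (L : Set (List A)) : Prop := (Set.range (lq L)).Finite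

/-- concatenation -/
def cat (L L' : Set (List A)) : Set (List A) := {w | ∃ x ∈ L, ∃ y ∈ L', w = x ++ y}

theorem Rec.of_range {X : Type} (f : List A → X) (hfin : (Set.range f).Finite)
    (hf : ∀ x y z, f x = f y → x ++ z ∈ L → y ++ z ∈ L) : Rec L := by
  classical
  refine (hfin.image fun t => if h : ∃ x, f x = t then lq L h.choose else ∅).subset ?_
  rintro _ ⟨x, rfl⟩
  have h : ∃ y, f y = f x := ⟨x, rfl⟩
  refine ⟨f x, ⟨x, rfl⟩, ?_⟩
  simp only [dif_pos h]
  ext z
  exact ⟨hf _ _ z h.choose_spec, hf _ _ z h.choose_spec.symm⟩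

theorem Rec.of_finite {X : Type} [Finite X] (f : List A → X)
    (hf : ∀ x y z, f x = f y → x ++ z ∈ L → y ++ z ∈ L) : Rec L :=
  Rec.of_range f (Set.toFinite _) hf

theorem Rec.inter (h : Rec L) (h' : Rec L') : Rec (L ∩ L') := by
  refine (Set.Finite.image2 (fun P Q => P ∩ Q) h h').subset ?_
  rintro _ ⟨x, rfl⟩
  exact ⟨_, ⟨x, rfl⟩, _, ⟨x, rfl⟩, rfl⟩

theorem Rec.union (h : Rec L) (h' : Rec L') : Rec (L ∪ L') := by
  refine (Set.Finite.image2 (fun P Q => P ∪ Q) h h').subset ?_
  rintro _ ⟨x, rfl⟩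
  exact ⟨_, ⟨x, rfl⟩, _, ⟨x, rfl⟩, rfl⟩

theorem rec_empty : Rec (∅ : Set (List A)) :=
  Rec.of_finite (fun _ => ()) fun _ _ _ _ h => h

theorem rec_nil : Rec ({[]} : Set (List A)) :=
  Rec.of_finite (fun w => w = []) fun x y z h hx => by
    have h1 : x ++ z = [] := hx
    rw [List.append_eq_nil_iff] at h1
    have h2 : y = [] := h ▸ h1.1
    rw [h2, h1.2]
    rfl

theorem Rec.biUnion {I : Type} {s : Set I} (hs : s.Finite) {F : I → Set (List A)}
    (h : ∀ i ∈ s, Rec (F i)) : Rec (⋃ i ∈ s, F i) := by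
  induction s, hs using Set.Finite.induction_on with
  | empty => simpa using rec_empty
  | insert _ _ ih =>
    rw [Set.biUnion_insert]
    exact (h _ (Set.mem_insert _ _)).union (ih fun i hi => h i (Set.mem_insert_of_mem _ hi))

theorem Rec.cat (h : Rec L) (h' : Rec L') : Rec (cat L L') := by
  refine (Set.Finite.image2 (fun P B => Hedge.cat P L' ∪ ⋃₀ B) h
    (Set.Finite.finite_subsets h')).subset ?_
  rintro _ ⟨w, rfl⟩
  refine ⟨_, ⟨w, rfl⟩, {Q | ∃ x y, w = x ++ y ∧ x ∈ L ∧ Q = lq L' y}, ?_, ?_⟩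
  · rintro _ ⟨x, y, -, -, rfl⟩
    exact ⟨y, rfl⟩
  · ext z
    constructor
    · rintro (⟨x, hx, y, hy, rfl⟩ | ⟨_, ⟨x, y, rfl, hx, rfl⟩, hz⟩)
      · exact ⟨w ++ x, hx, y, hy, (List.append_assoc _ _ _).symm⟩
      · exact ⟨x, hx, y ++ z, hz, List.append_assoc _ _ _⟩
    · rintro ⟨x, hx, y, hy, h1⟩
      rcases List.append_eq_append_iff.1 h1 with ⟨a, rfl, rfl⟩ | ⟨c, rfl, rfl⟩
      · exact Or.inl ⟨a, hx, y, hy, rfl⟩
      · exact Or.inr ⟨_, ⟨x, c, rfl, hx, rfl⟩, hy⟩

/-- the finite monoid attached to a recognisable language -/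
theorem Rec.monoid (h : Rec L) : ∃ (F : Type) (_ : Monoid F) (_ : Finite F) (φ : List A → F),
    (∀ x y, φ (x ++ y) = φ x * φ y) ∧
      (∀ w w', (∀ x y, x ++ w ++ y ∈ L ↔ x ++ w' ++ y ∈ L) → φ w = φ w') ∧
        ∀ w w', φ w = φ w' → w ∈ L → w' ∈ L := by
  have : Finite (Set.range (lq L)) := h.to_subtype
  have key : ∀ (w : List A) (Q : Set.range (lq L)), lq Q.1 w ∈ Set.range (lq L) := by
    rintro w ⟨_, x, rfl⟩
    refine ⟨x ++ w, ?_⟩
    ext z
    simp only [lq, Set.mem_ofPred_eq, List.append_assoc]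
  let ψ : List A → Function.End (Set.range (lq L)) := fun w Q => ⟨lq Q.1 w, key w Q⟩
  have : Finite (Function.End (Set.range (lq L))) := Pi.finite
  refine ⟨(Function.End (Set.range (lq L)))ᵐᵒᵖ, inferInstance,
    Finite.of_equiv _ MulOpposite.opEquiv, fun w => MulOpposite.op (ψ w), ?_, ?_, ?_⟩
  · intro x y
    rw [← MulOpposite.op_mul]
    refine congrArg MulOpposite.op (funext fun Q => Subtype.ext ?_)
    ext z
    change x ++ y ++ z ∈ Q.1 ↔ x ++ (y ++ z) ∈ Q.1
    rw [List.append_assoc]
  · intro w w' hw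
    refine congrArg MulOpposite.op (funext fun Q => ?_)
    obtain ⟨_, x, rfl⟩ := Q
    refine Subtype.ext ?_
    ext z
    change x ++ (w ++ z) ∈ L ↔ x ++ (w' ++ z) ∈ L
    rw [← List.append_assoc, ← List.append_assoc]
    exact hw x z
  · intro w w' hw hL
    have h1 : ψ w ⟨lq L [], [], rfl⟩ = ψ w' ⟨lq L [], [], rfl⟩ :=
      congrFun (MulOpposite.op_injective hw) _
    have h2 : lq (lq L []) w = lq (lq L []) w' := congrArg Subtype.val h1
    have h3 : [] ∈ lq (lq L []) w := by simpa [lq] using hL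
    rw [h2] at h3
    simpa [lq] using h3

end Pool.Agent.Work.MP_5b5e81_al.Hedge
end

-- merged part: Pool.Agent.Work.MP_5b5e81_al.Hedge.Seed
section
/-! Seeded words; every good factorisation is a normal form. -/

set_option autoImplicit false

namespace Pool.Agent.Work.MP_5b5e81_al.Hedge

open Relation Setup

variable {S M : Type} [Monoid S] [Monoid M]

/-- words with a letter that is `L`-related to its prefix and `R`-related to its suffix -/
def Seeded (w : List S) : Prop := ∃ u e v, w = u ++ e :: v ∧ KL u.prod e ∧ KR e v.prod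

theorem seeded_single (e : S) : Seeded [e] :=
  ⟨[], e, [], rfl, ⟨1, by simp⟩, ⟨1, by simp⟩⟩

theorem Seeded.appendR {a b : List S} (h : Seeded a) (hk : KR a.prod b.prod) :
    Seeded (a ++ b) := by
  obtain ⟨u, e, v, rfl, h1, h2⟩ := h
  refine ⟨u, e, v ++ b, by simp, h1, ?_⟩
  rw [List.prod_append, List.prod_cons, KR.iff_left (h1.mul_right _)] at hk
  rw [List.prod_append]
  exact h2.trans hk

theorem Seeded.appendL {a c : List S} (h : Seeded c) (hk : KL a.prod c.prod) :
    Seeded (a ++ c) := by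
  obtain ⟨u, e, v, rfl, h1, h2⟩ := h
  refine ⟨a ++ u, e, v, by simp, ?_, h2⟩
  rw [List.prod_append, List.prod_cons, ← mul_assoc, KL.iff_right (h2.mul_left _)] at hk
  rw [List.prod_append]
  exact h1.trans hk

theorem idl_left {l l' : List S} (h : Idl (l ++ l')) : Idl l :=
  fun e he => h e (List.mem_append_left _ he)

theorem idl_right {l l' : List S} (h : Idl (l ++ l')) : Idl l' :=
  fun e he => h e (List.mem_append_right _ he)

theorem idl_head {e : S} {l : List S} (h : Idl (e :: l)) : IsIdempotentElem e := h e (by simp)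

theorem idl_tail {e : S} {l : List S} (h : Idl (e :: l)) : Idl l :=
  fun f hf => h f (by simp [hf])

theorem ev_cons (T : Setup S M) (e : S) (l : List S) : T.ev (e :: l) = T.ι e * T.ev l := by
  simp [Setup.ev]

theorem ev_nil (T : Setup S M) : T.ev [] = 1 := rfl

theorem absorbW_seed (s : List (List S)) : ∀ c, (∀ a ∈ s, Seeded a) → Seeded c →
    (∀ a ∈ absorbW s c, Seeded a) ∧ (absorbW s c).reverse.flatten = s.reverse.flatten ++ c := by
  induction s with
  | nil => intro c _ hc; simpa [absorbW] using hc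
  | cons a s ih =>
    intro c hs hc
    by_cases h : KL a.prod c.prod
    · have h1 : absorbW (a :: s) c = absorbW s (a ++ c) := by
        simp only [absorbW, List.foldl_cons, stepA, h, and_self, if_true]
      have h2 := ih _ (fun x hx => hs x (by simp [hx])) (hc.appendL h)
      rw [h1]
      exact ⟨h2.1, by rw [h2.2]; simp⟩
    · have h1 : absorbW (a :: s) c = c :: a :: s := by
        simp only [absorbW, List.foldl_cons, stepA, h, and_false, if_false, List.nil_append]
        rw [foldl_stepA s c [a] (by simp)]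
        rfl
      rw [h1]
      refine ⟨fun x hx => ?_, by simp⟩
      rcases List.mem_cons.mp hx with rfl | hx
      · exact hc
      · exact hs x hx

theorem actW_seed (s : List (List S)) (b : List S) (hs : ∀ a ∈ s, Seeded a) (hb : Seeded b) :
    (∀ a ∈ actW s b, Seeded a) ∧ (actW s b).reverse.flatten = s.reverse.flatten ++ b := by
  rcases s with _ | ⟨a, s⟩
  · simpa [actW] using hb
  · by_cases h : KR a.prod b.prod
    · have h1 : actW (a :: s) b = (a ++ b) :: s := by simp only [actW, h, if_true]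
      rw [h1]
      refine ⟨fun x hx => ?_, by simp⟩
      rcases List.mem_cons.mp hx with rfl | hx
      · exact (hs a (by simp)).appendR h
      · exact hs x (by simp [hx])
    · have h1 : actW (a :: s) b = absorbW (a :: s) b := by simp only [actW, h, if_false]
      rw [h1]
      exact absorbW_seed _ _ hs hb

theorem nfW_seed (l : List S) : (∀ a ∈ nfW l, Seeded a) ∧ (nfW l).reverse.flatten = l := by
  have key : ∀ s : List (List S), (∀ a ∈ s, Seeded a) →
      (∀ a ∈ l.foldl (fun s e => actW s [e]) s, Seeded a) ∧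
        (l.foldl (fun s e => actW s [e]) s).reverse.flatten = s.reverse.flatten ++ l := by
    induction l with
    | nil => exact fun s hs => ⟨hs, by simp⟩
    | cons e l ih =>
      intro s hs
      have h1 := actW_seed s [e] hs (seeded_single e)
      have h2 := ih _ h1.1
      rw [h1.2] at h2
      exact ⟨h2.1, by rw [List.foldl_cons, h2.2]; simp⟩
  simpa [nfW] using key [] (by simp)

variable {T : Setup S M}

theorem Seeded.reg {w : List S} (h : Seeded w) (hw : Idl w) : T.Reg (T.ev w) := by
  obtain ⟨u, e, v, rfl, h1, h2⟩ := h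
  have he := idl_head (idl_right hw)
  have hu := idl_left hw
  have hv := idl_tail (idl_right hw)
  have r1 := ((T.reg_ι he).mulL (T.ev u) (by rwa [T.π_ev hu, T.π_ι e he])).1
  have r2 := (r1.mulR (T.ev v) (by
    rw [map_mul, T.π_ev hu, T.π_ι e he, T.π_ev hv]; exact h2.mul_left _)).1
  rwa [T.ev_append, ev_cons, ← mul_assoc]

theorem act_act_R (s : List M) {b c : M} (h : KR (T.π b) (T.π c)) :
    T.act (T.act s b) c = T.act s (b * c) := by
  rcases s with _ | ⟨a, s⟩
  · simp only [Setup.act, h, if_true]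
  · by_cases k : KR (T.π a) (T.π b)
    · rw [act_pos _ k, act_pos _ (by rw [map_mul]; exact h.mul_left _),
        act_pos _ (by rw [map_mul]; exact k.trans (h.mul_left _)), mul_assoc]
    · rw [act_neg _ k, act_absorb_R _ _ _ h, act_neg _ (by
        rw [map_mul]; exact fun h' => k h'.of_mul)]

theorem act_act_L (s : List M) (hs : ∀ a ∈ s, T.Reg a) {e : S} (he : IsIdempotentElem e) {c : M}
    (hc : T.Reg c) (h : KL e (T.π c)) :
    EqvGen T.Step (T.act (T.act s (T.ι e)) c) (T.act s (T.ι e * c)) := by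
  have pe := T.π_ι e he
  by_cases hR' : KR (T.π (T.ι e)) (T.π c)
  · rw [act_act_R s hR']
    exact EqvGen.refl _
  have hL : KL (T.π (T.ι e)) (T.π c) := by rwa [pe]
  rcases s with _ | ⟨a, s⟩
  · simp only [Setup.act, hR', if_false, Setup.absorb, hL, if_true]
    exact EqvGen.refl _
  · by_cases k : KR (T.π a) (T.π (T.ι e))
    · rw [act_pos _ k]
      have e1 : KR (T.π (a * T.ι e)) (T.π c) ↔ KR (T.π a) (T.π (T.ι e * c)) := by
        rw [map_mul, map_mul]; exact k.iff_mid _
      by_cases k2 : KR (T.π (a * T.ι e)) (T.π c)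
      · rw [act_pos _ k2, act_pos _ (e1.mp k2), mul_assoc]
        exact EqvGen.refl _
      · rw [act_neg _ k2, act_neg _ (fun h' => k2 (e1.mpr h'))]
        have e2 : KL (T.π (a * T.ι e)) (T.π c) ↔ KL (T.π a) (T.π (T.ι e * c)) := by
          rw [map_mul, map_mul]; exact hL.iff_mid _
        by_cases k3 : KL (T.π (a * T.ι e)) (T.π c)
        · rw [absorb_pos _ k3, absorb_pos _ (e2.mp k3), mul_assoc]
          exact EqvGen.refl _
        · rw [absorb_neg _ k3, absorb_neg _ (fun h' => k3 (e2.mpr h'))]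
          exact EqvGen.rel _ _ (Step.here a c e s he (hs a (by simp)) hc (pe ▸ k) h)
    · rw [act_neg _ k, act_absorb_L _ _ _ hR' hL, act_neg _ (by
        rw [map_mul]; exact fun h' => k h'.of_mul)]
      exact EqvGen.refl _

theorem nf_cons (s : List M) (e : S) (l : List S) :
    T.nf s (e :: l) = T.nf (T.act s (T.ι e)) l := rfl

theorem nf_right (s : List M) (v : List S) (hv : Idl v) : ∀ b : M, KR (T.π b) v.prod →
    T.nf (T.act s b) v = T.act s (b * T.ev v) := by
  induction v with
  | nil => intro b _; rw [ev_nil, mul_one]; rfl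
  | cons f v ih =>
    intro b hb
    have pf := T.π_ι f (idl_head hv)
    rw [List.prod_cons] at hb
    rw [nf_cons, act_act_R s (by rw [pf]; exact hb.of_mul),
      ih (idl_tail hv) _ (by rw [map_mul, pf]; exact hb.of_mul'), ev_cons, mul_assoc]

theorem nf_left {e : S} (he : IsIdempotentElem e) (u : List S) (hu : Idl u) :
    ∀ s : List M, T.Good s → KL u.prod e →
      EqvGen T.Step (T.nf s (u ++ [e])) (T.act s (T.ev u * T.ι e)) := by
  induction u with
  | nil => intro s _ _; rw [ev_nil, one_mul]; exact EqvGen.refl _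
  | cons f u ih =>
    intro s hs h
    have hf := idl_head hu
    rw [List.prod_cons] at h
    have h1 := ih (idl_tail hu) _ (good_act hs (T.reg_ι hf)) h.of_mul
    have r1 := ((T.reg_ι he).mulL (T.ev u) (by
      rw [T.π_ev (idl_tail hu), T.π_ι e he]; exact h.of_mul)).1
    have h2 := act_act_L s hs.1 hf r1 (by
      rw [map_mul, T.π_ev (idl_tail hu), T.π_ι e he]; exact h.of_mul')
    rw [List.cons_append, nf_cons, ev_cons, mul_assoc]
    exact h1.trans _ _ _ h2

theorem Seeded.nf {w : List S} (h : Seeded w) (hw : Idl w) {s : List M} (hs : T.Good s) :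
    EqvGen T.Step (T.nf s w) (T.act s (T.ev w)) := by
  obtain ⟨u, e, v, rfl, h1, h2⟩ := h
  have he := idl_head (idl_right hw)
  have hu := idl_left hw
  have hv := idl_tail (idl_right hw)
  have h3 := eqv_nf v hv _ _ (nf_left he u hu s hs h1)
  rw [nf_right s v hv _ (by rw [map_mul, T.π_ev hu, T.π_ι e he]; exact h2.mul_left _),
    ← nf_append] at h3
  rw [T.ev_append, ev_cons, ← mul_assoc]
  simpa using h3

theorem nf_factor (ws : List (List S)) (h : ∀ a ∈ ws, Idl a ∧ Seeded a)
    (hg : T.Good (ws.map T.ev)) : EqvGen T.Step (T.nf [] ws.reverse.flatten) (ws.map T.ev) := by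
  induction ws with
  | nil => exact EqvGen.refl _
  | cons w ws ih =>
    have hw := h w (by simp)
    have hg' : T.Good (ws.map T.ev) := ⟨fun x hx => hg.1 x (by simp [hx]), hg.2.tail⟩
    have h1 := eqv_nf w hw.1 _ _ (ih (fun a ha => h a (by simp [ha])) hg')
    have h2 := hw.2.nf hw.1 hg'
    have h3 : T.act (ws.map T.ev) (T.ev w) = T.ev w :: ws.map T.ev := by
      rcases ws with _ | ⟨x, ws⟩
      · rfl
      · have h4 := (List.isChain_cons_cons.mp hg.2).1
        rw [List.map_cons, act_neg _ h4.1, absorb_neg _ h4.2]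
    rw [h3] at h2
    rw [← nf_append] at h1
    simpa using h1.trans _ _ _ h2

theorem idl_flatten {ws : List (List S)} (h : ∀ a ∈ ws, Idl a) : Idl ws.reverse.flatten := by
  intro e he
  obtain ⟨a, ha, hea⟩ := List.mem_flatten.1 he
  exact h a (List.mem_reverse.1 ha) e hea

theorem rec_idl : Rec {w : List S | Idl w} :=
  Rec.of_finite (fun w => Idl w) fun x y z h hx => by
    have h1 : Idl (x ++ z) := hx
    have h2 : Idl y := h ▸ idl_left h1
    exact h2.append (idl_right h1)

theorem rec_seeded [Finite S] : Rec {w : List S | Seeded w} := by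
  have h1 : ∀ e : S, Rec {u : List S | KL u.prod e} := fun e =>
    Rec.of_finite List.prod fun x y z h hx => by
      simp only [Set.mem_ofPred_eq, List.prod_append] at hx ⊢
      rwa [← h]
  have h2 : ∀ e : S, Rec {w : List S | ∃ v, w = e :: v ∧ KR e v.prod} := fun e =>
    Rec.of_finite (fun w => (w.head?, w.tail.prod)) fun x y z h hx => by
      simp only [Prod.mk.injEq] at h
      rcases x with _ | ⟨a, x⟩ <;> rcases y with _ | ⟨b, y⟩
      · exact hx
      · simp at h
      · simp at h
      · obtain ⟨v, hv, hk⟩ := hx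
        simp only [List.head?_cons, Option.some.injEq, List.tail_cons] at h
        simp only [List.cons_append, List.cons.injEq] at hv
        refine ⟨y ++ z, by rw [← h.1, hv.1]; rfl, ?_⟩
        rwa [List.prod_append, ← h.2, ← List.prod_append, hv.2]
  have h3 := Rec.biUnion (Set.finite_univ (α := S)) fun e _ => (h1 e).cat (h2 e)
  have h4 : {w : List S | Seeded w} = ⋃ e ∈ (Set.univ : Set S),
      cat {u : List S | KL u.prod e} {w : List S | ∃ v, w = e :: v ∧ KR e v.prod} := by
    ext w
    simp only [Set.mem_univ, Set.iUnion_true, Set.mem_iUnion]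
    constructor
    · rintro ⟨u, e, v, rfl, a1, a2⟩
      exact ⟨e, u, a1, _, ⟨v, rfl, a2⟩, rfl⟩
    · rintro ⟨e, u, a1, _, ⟨v, rfl, a2⟩, rfl⟩
      exact ⟨u, e, v, rfl, a1, a2⟩
  rwa [h4]

end Pool.Agent.Work.MP_5b5e81_al.Hedge
end

-- merged part: Pool.Agent.Work.MP_5b5e81_al.Hedge.Free
section
/-! A finite automaton that separates short reduced words of large rank. -/

set_option autoImplicit false

namespace Pool.Agent.Work.MP_5b5e81_al.Hedge

open Relation Pt

section general

variable {S : Type} [Monoid S]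

open Classical in
/-- the involution of a letter on short words without equal neighbours -/
noncomputable def sg (K : ℕ) (e : S) (s : List S) : List S :=
  if s.head? = some e then s.tail else if s.length < K then e :: s else s

/-- short words without equal neighbours -/
def Short (K : ℕ) (s : List S) : Prop := s.length ≤ K ∧ s.IsChain (· ≠ ·)

omit [Monoid S] in
theorem Short.sg {K : ℕ} {s : List S} (h : Short K s) (e : S) : Short K (sg K e s) := by
  unfold Hedge.sg
  split_ifs with h1 h2
  · exact ⟨by rw [List.length_tail]; have := h.1; omega, h.2.tail⟩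
  · refine ⟨h2, List.isChain_cons.2 ⟨fun y hy hey => h1 ?_, h.2⟩⟩
    rw [hey]
    exact hy
  · exact h

omit [Monoid S] in
theorem Short.sg_sg {K : ℕ} {s : List S} (h : Short K s) (e : S) :
    Hedge.sg K e (Hedge.sg K e s) = s := by
  by_cases h1 : s.head? = some e
  · rcases s with _ | ⟨a, s⟩
    · simp at h1
    · have ha : a = e := by simpa using h1
      subst ha
      have h2 : ¬ s.head? = some a := fun h2 => (List.isChain_cons.1 h.2).1 a h2 rfl
      have h3 : s.length < K := h.1
      have h4 : Hedge.sg K a (a :: s) = s := by simp [Hedge.sg]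
      rw [h4, Hedge.sg, if_neg h2, if_pos h3]
  · by_cases h2 : s.length < K
    · have h4 : Hedge.sg K e s = e :: s := by rw [Hedge.sg, if_neg h1, if_pos h2]
      rw [h4]
      simp [Hedge.sg]
    · have h4 : Hedge.sg K e s = s := by rw [Hedge.sg, if_neg h1, if_neg h2]
      rw [h4, h4]

/-- `g` is in the `L`-class of `α` and in the `R`-class of `e`, and is a one-sided identity -/
def Mid (α e g : S) : Prop := α * g = α ∧ (∃ x, x * α = g) ∧ g * e = e ∧ ∃ y, e * y = g

open Classical in
/-- the idempotent between `α` and `e` -/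
noncomputable def gg (α e : S) : S := if h : ∃ g, Mid α e g then h.choose else 1

theorem gg_eq {α e g : S} (h : Mid α e g) : gg α e = g := by
  have h0 : ∃ g, Mid α e g := ⟨g, h⟩
  rw [gg, dif_pos h0]
  obtain ⟨-, ⟨x, hx⟩, h3, -⟩ := h0.choose_spec
  obtain ⟨h1, -, -, y, hy⟩ := h
  calc h0.choose = x * α * g := by rw [mul_assoc, h1, hx]
    _ = h0.choose * e * y := by rw [hx, mul_assoc, hy]
    _ = g := by rw [h3, hy]

theorem gg_spec {α e : S} (h : gg α e ≠ 1) : Mid α e (gg α e) := by
  by_cases h0 : ∃ g, Mid α e g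
  · rw [gg_eq h0.choose_spec]
    exact h0.choose_spec
  · exact absurd (by rw [gg, dif_neg h0]) h

theorem gg_congr (α : S) {e f y : S} (h1 : f * e = e) (h2 : e * y = f) : gg α f = gg α e := by
  have key : ∀ g, Mid α f g ↔ Mid α e g := by
    intro g
    refine and_congr_right fun _ => and_congr_right fun _ => ⟨?_, ?_⟩
    · rintro ⟨h3, z, hz⟩
      exact ⟨by rw [← h1, ← mul_assoc, h3], y * z, by rw [← mul_assoc, h2, hz]⟩
    · rintro ⟨h3, z, hz⟩
      exact ⟨by rw [← h2, ← mul_assoc, h3], e * z, by rw [← mul_assoc, h1, hz]⟩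
  by_cases h0 : ∃ g, Mid α e g
  · obtain ⟨g, hg⟩ := h0
    rw [gg_eq hg, gg_eq ((key g).2 hg)]
  · rw [gg, gg, dif_neg h0, dif_neg fun ⟨g, hg⟩ => h0 ⟨g, (key g).1 hg⟩]

open Classical in
/-- one step of the automaton -/
noncomputable def stp (K : ℕ) (p : S × List S) (e : S) : S × List S :=
  (p.1 * e, if e = 1 then p.2 else if p.1 = 1 then sg K e p.2 else sg K e (sg K (gg p.1 e) p.2))

theorem stp_fst (K : ℕ) (p : S × List S) (e : S) : (stp K p e).1 = p.1 * e := rfl

theorem stp_eq {K : ℕ} {p : S × List S} {e : S} (he : e ≠ 1) (hp : p.1 = 1) :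
    (stp K p e).2 = sg K e p.2 := by
  rw [stp]
  dsimp only
  rw [if_neg he, if_pos hp]

theorem stp_ne {K : ℕ} {p : S × List S} {e : S} (he : e ≠ 1) (hp : p.1 ≠ 1) :
    (stp K p e).2 = sg K e (sg K (gg p.1 e) p.2) := by
  rw [stp]
  dsimp only
  rw [if_neg he, if_neg hp]

/-- the run of the automaton -/
noncomputable def run (K : ℕ) (l : List S) : S × List S := l.foldl (stp K) (1, [])

theorem run_nil (K : ℕ) : run K ([] : List S) = (1, []) := rfl

theorem run_append (K : ℕ) (l l' : List S) : run K (l ++ l') = l'.foldl (stp K) (run K l) :=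
  List.foldl_append

theorem run_concat (K : ℕ) (l : List S) (e : S) : run K (l ++ [e]) = stp K (run K l) e :=
  run_append K l [e]

theorem run_spec (K : ℕ) (l : List S) : (run K l).1 = l.prod ∧ Short K (run K l).2 := by
  induction l using List.reverseRecOn with
  | nil => exact ⟨rfl, Nat.zero_le _, List.isChain_nil⟩
  | append_singleton l e ih =>
    rw [run_concat, stp]
    refine ⟨by simp [ih.1], ?_⟩
    dsimp only
    split_ifs
    · exact ih.2
    · exact ih.2.sg _
    · exact (ih.2.sg _).sg _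

theorem mul_ne_one {α f : S} (hf : IsIdempotentElem f) (h1 : f ≠ 1) : α * f ≠ 1 := by
  intro h
  apply h1
  calc f = α * f * f := by rw [h, one_mul]
    _ = 1 := by rw [mul_assoc, hf.eq, h]

/-- the expanded word -/
noncomputable def expand : List S → List S
  | [] => []
  | [e] => [e]
  | e :: f :: s => e :: gg (f :: s).reverse.prod e :: expand (f :: s)

theorem head_expand (e : S) (s : List S) : (expand (e :: s)).head? = some e := by
  cases s <;> rfl

theorem length_expand (s : List S) : ∀ e : S, (expand (e :: s)).length = 2 * s.length + 1 := by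
  induction s with
  | nil => intro e; rfl
  | cons f s ih =>
    intro e
    simp only [expand, List.length_cons, ih f]
    omega

theorem expand_inj (s : List S) : ∀ s' : List S, expand s = expand s' → s = s' := by
  induction s with
  | nil =>
    rintro (_ | ⟨e, s'⟩) h
    · rfl
    · have := congrArg List.head? h
      rw [head_expand] at this
      simp [expand] at this
  | cons e s ih =>
    rintro (_ | ⟨e', s'⟩) h
    · have := congrArg List.head? h
      rw [head_expand] at this
      simp [expand] at this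
    · have h1 := congrArg List.length h
      rw [length_expand, length_expand] at h1
      rcases s with _ | ⟨f, s⟩ <;> rcases s' with _ | ⟨f', s'⟩
      · exact h
      · simp at h1
      · simp at h1
      · simp only [expand, List.cons.injEq] at h
        rw [h.1, ih _ h.2.2]

end general

variable {n : ℕ}

/-- reduced words of large rank (the head is the last letter) -/
def Hi (s : List (Pt n)) : Prop := Redu s ∧ Idl s ∧ (∀ f ∈ s, f ≠ 1) ∧ ¬ s.reverse.prod.Low

theorem hi_nil : Hi ([] : List (Pt n)) := by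
  refine ⟨List.isChain_nil, fun _ h => by simp at h, fun _ h => by simp at h, ?_⟩
  simp only [List.reverse_nil, List.prod_nil, Low, rk_one]
  omega

theorem Hi.tail {f : Pt n} {s : List (Pt n)} (h : Hi (f :: s)) : Hi s := by
  refine ⟨h.1.tail, idl_tail h.2.1, fun g hg => h.2.2.1 g (by simp [hg]), fun hl => h.2.2.2 ?_⟩
  rw [List.reverse_cons, List.prod_append]
  exact hl.mul_right _

theorem run_push (K : ℕ) {e : Pt n} (he : IsIdempotentElem e) (he1 : e ≠ 1) (s : List (Pt n))
    (hs : Hi s) (hl : ¬ (s.reverse.prod * e).Low) :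
    run K (push s e).reverse = stp K (run K s.reverse) e := by
  induction s with
  | nil => rfl
  | cons f s ih =>
    have hf := idl_head hs.2.1
    have hf1 := hs.2.2.1 f (by simp)
    have hlow := hs.2.2.2
    rw [List.reverse_cons, List.prod_append, List.prod_singleton] at hl hlow
    obtain ⟨x, hx⟩ := kl_of_not_low hf hf1 hlow
    have hfe : ¬ (f * e).Low := fun h => hl (by rw [mul_assoc]; exact h.mul_left _)
    obtain ⟨r1, r2⟩ := run_spec K s.reverse
    rw [push_cons]
    split_ifs with h1 h2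
    · obtain ⟨z, hz⟩ := kl_of_not_low he he1 hfe
      rw [h1] at hz
      obtain ⟨q1, q2⟩ := run_spec K (f :: s).reverse
      rw [List.reverse_cons, List.prod_append, List.prod_singleton] at q1
      rw [List.reverse_cons] at q2 ⊢
      have h3 : gg (s.reverse.prod * f) e = e := gg_eq ⟨by rw [mul_assoc, h1],
        ⟨z * x, by rw [mul_assoc, hx, hz]⟩, he.eq, 1, mul_one _⟩
      refine Prod.ext ?_ ?_
      · rw [stp_fst, q1, mul_assoc, h1]
      · rw [stp_ne he1 (by rw [q1]; exact mul_ne_one hf hf1), q1, h3, q2.sg_sg]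
    · obtain ⟨y, hy⟩ := kr_of_not_low hf hf1 hfe
      rw [h2] at hy
      rw [ih hs.tail (by rwa [mul_assoc, h2] at hl), List.reverse_cons, run_concat]
      have h3 : gg (s.reverse.prod * f) e = f := gg_eq ⟨by rw [mul_assoc, hf.eq],
        ⟨x, hx⟩, h2, y, hy⟩
      refine Prod.ext ?_ ?_
      · rw [stp_fst, stp_fst, stp_fst, mul_assoc, h2]
      · rw [stp_ne (p := stp K _ f) he1 (by rw [stp_fst, r1]; exact mul_ne_one hf hf1), stp_fst,
          r1, h3]
        by_cases h4 : (run K s.reverse).1 = 1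
        · rw [stp_eq he1 h4, stp_eq hf1 h4, r2.sg_sg]
        · rw [stp_ne he1 h4, stp_ne hf1 h4, (r2.sg _).sg_sg, gg_congr _ h2 hy]
    · rw [List.reverse_cons, run_concat]

theorem ne_one_push {e : Pt n} (he1 : e ≠ 1) (s : List (Pt n)) (hs : ∀ f ∈ s, f ≠ 1) :
    ∀ f ∈ push s e, f ≠ 1 := by
  induction s with
  | nil => intro f hf; rw [List.mem_singleton.mp hf]; exact he1
  | cons f s ih =>
    rw [push_cons]
    split_ifs with h1 h2
    · exact hs
    · exact ih fun g hg => hs g (by simp [hg])
    · intro g hg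
      rcases List.mem_cons.mp hg with rfl | hg
      · exact he1
      · exact hs g hg

theorem run_fold (K : ℕ) (l : List (Pt n)) (hl : Idl l) : ∀ s, Hi s →
    ¬ (s.reverse.prod * l.prod).Low → Hi (l.foldl push1 s) ∧
      run K (l.foldl push1 s).reverse = l.foldl (stp K) (run K s.reverse) := by
  induction l with
  | nil => exact fun s hs _ => ⟨hs, rfl⟩
  | cons e l ih =>
    intro s hs hlow
    have he := idl_head hl
    rw [List.prod_cons, ← mul_assoc] at hlow
    rw [List.foldl_cons, List.foldl_cons, push1]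
    split_ifs with he1
    · subst he1
      have h1 : stp K (run K s.reverse) 1 = run K s.reverse := by simp [stp]
      rw [h1]
      exact ih (idl_tail hl) s hs (by rwa [mul_one] at hlow)
    · have h0 : ¬ (s.reverse.prod * e).Low := fun h => hlow (h.mul_right _)
      have h1 := run_push K he he1 s hs h0
      have h2 : (push s e).reverse.prod = s.reverse.prod * e := by
        rw [← (run_spec K _).1, h1, stp, (run_spec K _).1]
      rw [← h1]
      exact ih (idl_tail hl) _ ⟨redu_push hs.1 e, idl_push hs.2.1 he, ne_one_push he1 s hs.2.2.1,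
        by rwa [h2]⟩ (by rwa [h2])

open Classical in
theorem gamW_spec (K : ℕ) {l : List (Pt n)} (hl : Idl l) : Hi (gamW l) ∧
    (run K (gamW l).reverse).2 = if l.prod.Low then [] else (run K l).2 := by
  unfold gamW
  split_ifs with h
  · exact ⟨hi_nil, rfl⟩
  · obtain ⟨h1, h2⟩ := run_fold K l hl [] hi_nil (by simpa using h)
    exact ⟨h1, by rw [h2]; rfl⟩

theorem run_expand (K : ℕ) (s : List (Pt n)) (hs : Hi s) (hK : 2 * s.length ≤ K) :
    (run K s.reverse).2 = expand s := by
  induction s with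
  | nil => rfl
  | cons e s ih =>
    have he1 := hs.2.2.1 e (by simp)
    have ih' := ih hs.tail (by simp only [List.length_cons] at hK; omega)
    rw [List.reverse_cons, run_concat]
    rcases s with _ | ⟨f, s⟩
    · have h0 : 0 < K := by simp only [List.length_cons] at hK; omega
      simp [stp, run_nil, he1, sg, h0, expand]
    · have ht := hs.tail
      have hf := idl_head ht.2.1
      have hf1 := ht.2.2.1 f (by simp)
      have hr := (List.isChain_cons_cons.mp hs.1).1
      have hlow := ht.2.2.2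
      have r1 := (run_spec K (f :: s).reverse).1
      have hp : (f :: s).reverse.prod = s.reverse.prod * f := by simp
      rw [hp] at hlow
      obtain ⟨x, hx⟩ := kl_of_not_low hf hf1 hlow
      have g1 : gg (f :: s).reverse.prod e ≠ f := fun h => by
        have := gg_spec (by rw [h]; exact hf1 : gg (f :: s).reverse.prod e ≠ 1)
        rw [h] at this
        exact hr.2 this.2.2.1
      have g2 : gg (f :: s).reverse.prod e ≠ e := fun h => by
        have := gg_spec (by rw [h]; exact he1 : gg (f :: s).reverse.prod e ≠ 1)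
        rw [h, hp] at this
        exact hr.1 (by rw [← hx, mul_assoc, this.1])
      have hne : (f :: s).reverse.prod ≠ 1 := by rw [hp]; exact mul_ne_one hf hf1
      have hlen := length_expand s f
      simp only [List.length_cons] at hK
      have a1 : sg K (gg (f :: s).reverse.prod e) (expand (f :: s)) =
          gg (f :: s).reverse.prod e :: expand (f :: s) := by
        rw [sg, if_neg (by rw [head_expand]; exact fun h => g1 (Option.some.inj h).symm),
          if_pos (by omega)]
      rw [stp_ne he1 (by rw [r1]; exact hne), r1, ih', a1]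
      rw [sg, List.head?_cons, if_neg (fun h => g2 (Option.some.inj h)),
        if_pos (by simp only [List.length_cons]; omega)]
      rfl

theorem run_inj {K : ℕ} {s s' : List (Pt n)} (hs : Hi s) (hs' : Hi s') (hK : 2 * s.length ≤ K)
    (hK' : 2 * s'.length ≤ K) (h : (run K s.reverse).2 = (run K s'.reverse).2) : s = s' := by
  rw [run_expand K s hs hK, run_expand K s' hs' hK'] at h
  exact expand_inj _ _ h

end Pool.Agent.Work.MP_5b5e81_al.Hedge
end

-- merged part: Pool.Agent.Work.MP_5b5e81_al.Hedge.Main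
section
/-! Different elements are separated by a saturated recognisable language. -/

set_option autoImplicit false

namespace Pool.Agent.Work.MP_5b5e81_al.Hedge

open Relation Pt

section vass

variable {Q G H : Type} {L : List (Rule Q)}

/-- reduction of the counter and of the label -/
def rr (N : ℕ) (h : G → H) (y : Q × ℤ × G) : Q × ZMod (N + 1) × H :=
  (y.1, (y.2.1 : ZMod (N + 1)), h y.2.2)

theorem vstep_lift {N : ℕ} {h : G → H} {D D' : List (Q × ℤ × G)} (hs : VStep L D D') :
    ∀ e : List (Q × ℤ × G), e.map (rr N h) = D.map (rr N h) →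
      ∃ e', VStep L e e' ∧ e'.map (rr N h) = D'.map (rr N h) := by
  induction hs with
  | here r j i g g' s hr =>
    intro e he
    rw [List.map_cons, List.map_cons] at he
    obtain ⟨⟨y1, y2, y3⟩, e1, rfl, hy, he1⟩ := List.map_eq_cons_iff.mp he
    obtain ⟨⟨x1, x2, x3⟩, e2, rfl, hx, he2⟩ := List.map_eq_cons_iff.mp he1
    simp only [rr, Prod.mk.injEq] at hx hy
    obtain ⟨rfl, a2, a3⟩ := hy
    obtain ⟨rfl, b2, b3⟩ := hx
    refine ⟨_, VStep.here r y2 x2 y3 x3 e2 hr, ?_⟩
    simp only [List.map_cons, he2]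
    simp only [rr, Int.cast_sub, Int.cast_add, a2, a3, b2, b3]
  | there z _ ih =>
    intro e he
    rw [List.map_cons] at he
    obtain ⟨y, e1, rfl, hy, he1⟩ := List.map_eq_cons_iff.mp he
    obtain ⟨e', h1, h2⟩ := ih e1 he1
    exact ⟨y :: e', h1.there y, by rw [List.map_cons, List.map_cons, hy, h2]⟩

variable (L) in
/-- the reduced class -/
def cls (N : ℕ) (h : G → H) (d : List (Q × ℤ × G)) : Set (List (Q × ZMod (N + 1) × H)) :=
  {c | ∃ e, EqvGen (VStep L) d e ∧ e.map (rr N h) = c}

theorem cls_finite [Finite Q] (N : ℕ) (h : G → H) (d : List (Q × ℤ × G)) :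
    (cls L N h d).Finite := by
  refine (finite_lists (F := Set.univ ×ˢ (Set.univ ×ˢ {g | g ∈ (d.map (·.2.2)).map h}))
    (Set.finite_univ.prod (Set.finite_univ.prod (List.finite_toSet _))) d.length).subset ?_
  rintro c ⟨e, he, rfl⟩
  have h2 := eqv_third he
  refine ⟨by simpa using (congrArg List.length h2).symm, fun y hy => ?_⟩
  obtain ⟨z, hz, rfl⟩ := List.mem_map.mp hy
  refine ⟨trivial, trivial, ?_⟩
  change h z.2.2 ∈ (d.map (·.2.2)).map h
  rw [h2]
  exact List.mem_map.mpr ⟨_, List.mem_map.mpr ⟨z, hz, rfl⟩, rfl⟩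

theorem cls_sat (hsym : ∀ d d' : List (Q × ℤ × G), VStep L d d' → VStep L d' d) {N : ℕ}
    {h : G → H} {d D D' : List (Q × ℤ × G)} (hs : EqvGen (VStep L) D D') :
    D.map (rr N h) ∈ cls L N h d ↔ D'.map (rr N h) ∈ cls L N h d := by
  have key : ∀ D D' : List (Q × ℤ × G), VStep L D D' → D.map (rr N h) ∈ cls L N h d →
      D'.map (rr N h) ∈ cls L N h d := by
    rintro D D' hs ⟨e, h1, h2⟩
    obtain ⟨e', h3, h4⟩ := vstep_lift hs e h2
    exact ⟨e', h1.trans _ _ _ (EqvGen.rel _ _ h3), h4⟩
  induction hs with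
  | rel _ _ hs => exact ⟨key _ _ hs, key _ _ (hsym _ _ hs)⟩
  | refl => rfl
  | symm _ _ _ ih => exact ih.symm
  | trans _ _ _ _ _ ih1 ih2 => exact ih1.trans ih2

theorem red_of_rr {N : ℕ} {h : G → H} (e : List (Q × ℤ × G)) : ∀ d : List (Q × ℤ × G),
    (∀ g ∈ e.map (·.2.2), ∀ g' ∈ d.map (·.2.2), h g = h g' → g = g') →
      e.map (rr N h) = d.map (rr N h) → e.map (red N) = d.map (red N) := by
  induction e with
  | nil =>
    intro d _ h1
    have : d = [] := by simpa using h1.symm
    rw [this]
  | cons y e ih =>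
    rintro (_ | ⟨x, d⟩) hi h1
    · simp at h1
    · simp only [List.map_cons, List.cons.injEq] at h1 hi ⊢
      refine ⟨?_, ih d (fun g hg g' hg' => hi g (List.mem_cons_of_mem _ hg) g'
        (List.mem_cons_of_mem _ hg')) h1.2⟩
      have h2 := h1.1
      simp only [rr, Prod.mk.injEq] at h2
      rw [red, red, h2.1, (ZMod.intCast_eq_intCast_iff' _ _ _).1 h2.2.1,
        hi _ List.mem_cons_self _ List.mem_cons_self h2.2.2]

theorem cls_sep {h : G → H} {d d' : List (Q × ℤ × G)}
    (hi : ∀ g ∈ d.map (·.2.2), ∀ g' ∈ d'.map (·.2.2), h g = h g' → g = g')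
    (hne : ¬ EqvGen (VStep L) d d') : ∃ N, d'.map (rr N h) ∉ cls L N h d := by
  have h1 := mt vass_sep hne
  push Not at h1
  obtain ⟨N, hN⟩ := h1
  refine ⟨N, ?_⟩
  rintro ⟨e, he, h2⟩
  obtain ⟨t, rfl⟩ := red_eq N e d' (red_of_rr e d' (by rwa [← eqv_third he]) h2)
  exact hN t he

end vass

variable {n : ℕ}

/-- the reduced label -/
noncomputable def hh (K : ℕ) (s : List (Pt n)) : List (Pt n) := (run K s.reverse).2

/-- the reduced data of a word -/
noncomputable def rd (K N : ℕ) (l : List (Pt n)) : Pt n × ZMod (N + 1) × List (Pt n) :=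
  rr N (hh K) (l.prod, tz l, gamW l)

theorem rec_rd (K N : ℕ) (c : Pt n × ZMod (N + 1) × List (Pt n)) :
    Rec {w : List (Pt n) | Idl w ∧ rd K N w = c} := by
  refine Rec.of_range (fun l => (Idl l, run K l, (tz l : ZMod (N + 1)))) ?_ ?_
  · refine (Set.finite_univ.prod ((Set.finite_univ.prod (List.finite_length_le (Pt n) K)).prod
      Set.finite_univ)).subset ?_
    rintro _ ⟨l, rfl⟩
    exact ⟨trivial, ⟨trivial, (run_spec K l).2.1⟩, trivial⟩
  · rintro x y z h ⟨h1, h2⟩
    simp only [Prod.mk.injEq] at h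
    obtain ⟨a1, a2, a3⟩ := h
    have h3 : Idl (y ++ z) := (a1 ▸ idl_left h1 : Idl y).append (idl_right h1)
    have h4 : x.prod = y.prod := by rw [← (run_spec K x).1, a2, (run_spec K y).1]
    have h5 : (y ++ z).prod = (x ++ z).prod := by rw [List.prod_append, List.prod_append, h4]
    refine ⟨h3, Eq.trans ?_ h2⟩
    simp only [rd, rr, hh]
    rw [(gamW_spec K h1).2, (gamW_spec K h3).2, h5]
    simp only [run_append, a2, h4, tz_append, Int.cast_add, a3]

/-- words with a seeded factorisation of given reduced data -/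
def Lc (K N : ℕ) : List (Pt n × ZMod (N + 1) × List (Pt n)) → Set (List (Pt n))
  | [] => {[]}
  | y :: c => cat (Lc K N c) ({w | Seeded w} ∩ {w | Idl w ∧ rd K N w = y})

theorem rec_Lc (K N : ℕ) (c : List (Pt n × ZMod (N + 1) × List (Pt n))) : Rec (Lc K N c) := by
  induction c with
  | nil => exact rec_nil
  | cons y c ih => exact ih.cat (rec_seeded.inter (rec_rd K N y))

theorem mem_Lc (K N : ℕ) (c : List (Pt n × ZMod (N + 1) × List (Pt n))) : ∀ w : List (Pt n),
    w ∈ Lc K N c ↔ ∃ ws : List (List (Pt n)), (∀ a ∈ ws, Idl a ∧ Seeded a) ∧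
      ws.map (rd K N) = c ∧ ws.reverse.flatten = w := by
  induction c with
  | nil =>
    intro w
    constructor
    · rintro rfl
      exact ⟨[], by simp, rfl, rfl⟩
    · rintro ⟨ws, -, h, rfl⟩
      rw [List.map_eq_nil_iff.mp h]
      rfl
  | cons y c ih =>
    intro w
    constructor
    · rintro ⟨x, hx, a, ⟨a1, a2, a3⟩, rfl⟩
      obtain ⟨ws, h1, h2, rfl⟩ := (ih x).1 hx
      refine ⟨a :: ws, fun b hb => ?_, by rw [List.map_cons, a3, h2], by simp⟩
      rcases List.mem_cons.mp hb with rfl | hb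
      · exact ⟨a2, a1⟩
      · exact h1 b hb
    · rintro ⟨ws, h1, h2, rfl⟩
      obtain ⟨a, ws, rfl, a3, h3⟩ := List.map_eq_cons_iff.mp h2
      have ha := h1 a (by simp)
      exact ⟨_, (ih _).2 ⟨ws, fun b hb => h1 b (by simp [hb]), h3, rfl⟩, a, ⟨ha.2, ha.1, a3⟩,
        by simp⟩

variable {M : Type} [Monoid M] {T : Setup (Pt n) M}

theorem eqv_dat (hT : Pres T) {s s' : List M} (h : EqvGen T.Step s s') : T.Good s →
    EqvGen (VStep (rules n)) (s.map (dat T)) (s'.map (dat T)) := by
  induction h with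
  | rel _ _ h => exact fun hs => EqvGen.rel _ _ (hT.vstep h hs)
  | refl => exact fun _ => EqvGen.refl _
  | symm _ _ h ih => exact fun hs => (ih ((eqv_good h).mpr hs)).symm
  | trans _ _ _ h _ ih1 ih2 => exact fun hs => (ih1 hs).trans _ _ _ (ih2 ((eqv_good h).mp hs))

theorem map_rd (hT : Pres T) (K N : ℕ) {ws : List (List (Pt n))} (h : ∀ a ∈ ws, Idl a) :
    ((ws.map T.ev).map (dat T)).map (rr N (hh K)) = ws.map (rd K N) := by
  rw [List.map_map, List.map_map]
  refine List.map_congr_left fun a ha => ?_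
  simp only [Function.comp_apply, hT.dat_ev (h a ha), rd]

theorem rec_cls (hT : Pres T) (K N : ℕ) (d : List (Pt n × ℤ × List (Pt n))) :
    Rec {w | Idl w ∧ ((T.nf [] w).map (dat T)).map (rr N (hh K)) ∈ cls (rules n) N (hh K) d} := by
  have h1 := Rec.biUnion ((cls_finite (L := rules n) N (hh K) d).inter_of_left
    {c | c.IsChain fun y x => ¬ KR x.1 y.1 ∧ ¬ KL x.1 y.1}) fun c _ => rec_Lc K N c
  refine Eq.mpr (congrArg Rec ?_) h1
  ext w
  simp only [Set.mem_iUnion, mem_Lc, Set.mem_ofPred_eq, Set.mem_inter_iff]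
  constructor
  · rintro ⟨hw, hc⟩
    obtain ⟨a1, a2⟩ := nfW_spec T w hw
    obtain ⟨a3, a4⟩ := nfW_seed w
    refine ⟨_, ⟨hc, ?_⟩, nfW w, fun a ha => ⟨a1 a ha, a3 a ha⟩, ?_, a4⟩
    · rw [List.isChain_map, List.isChain_map]
      exact (Setup.good_nf w hw _ (Setup.good_nil (T := T))).2
    · rw [← a2, map_rd hT K N a1]
  · rintro ⟨_, ⟨hc, hch⟩, ws, a1, rfl, rfl⟩
    have a2 : ∀ a ∈ ws, Idl a := fun a ha => (a1 a ha).1
    have hw := idl_flatten a2
    rw [← map_rd hT K N a2] at hc hch
    have hg : T.Good (ws.map T.ev) := by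
      refine ⟨fun x hx => ?_, ?_⟩
      · obtain ⟨a, ha, rfl⟩ := List.mem_map.mp hx
        exact (a1 a ha).2.reg (a1 a ha).1
      · rw [List.isChain_map, List.isChain_map] at hch
        exact hch
    exact ⟨hw, (cls_sat rules_symm (eqv_dat hT (nf_factor ws a1 hg)
      (Setup.good_nf _ hw _ (Setup.good_nil (T := T))))).2 hc⟩

theorem sep_words (hT : Pres T) {u v : List (Pt n)} (hu : Idl u) (hv : Idl v)
    (h : T.ev u ≠ T.ev v) : ∃ (F : Type) (_ : Monoid F) (_ : Finite F) (φ : List (Pt n) → F),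
      (∀ x y, φ (x ++ y) = φ x * φ y) ∧
        (∀ w w', Idl w → Idl w' → T.ev w = T.ev w' → φ w = φ w') ∧ φ u ≠ φ v := by
  have hne := mt (hT.eq_iff hu hv).2 h
  have hi : ∀ s : List M, ∀ g ∈ (s.map (dat T)).map (·.2.2), Hi g := by
    intro s g hg
    obtain ⟨_, hy, rfl⟩ := List.mem_map.mp hg
    obtain ⟨a, -, rfl⟩ := List.mem_map.mp hy
    exact (gamW_spec 0 (idl_wd T a)).1
  obtain ⟨K, hK⟩ := ((List.finite_toSet (((T.nf [] u).map (dat T)).map (·.2.2) ++
    ((T.nf [] v).map (dat T)).map (·.2.2))).image fun g => 2 * g.length).bddAbove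
  obtain ⟨N, hN⟩ := cls_sep (h := hh K) (fun g hg g' hg' => run_inj (hi _ g hg) (hi _ g' hg')
    (hK ⟨g, List.mem_append_left _ hg, rfl⟩) (hK ⟨g', List.mem_append_right _ hg', rfl⟩)) hne
  obtain ⟨F, i1, i2, φ, h1, h2, h3⟩ := (rec_cls hT K N ((T.nf [] u).map (dat T))).monoid
  refine ⟨F, i1, i2, φ, h1, ?_, fun h4 => hN (h3 u v h4 ⟨hu, _, EqvGen.refl _, rfl⟩).2⟩
  have key : ∀ w w' x y : List (Pt n), Idl w' → Idl (x ++ w ++ y) → Idl (x ++ w' ++ y) :=
    fun w w' x y hw' hx => ((idl_left (idl_left hx)).append hw').append (idl_right hx)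
  intro w w' hw hw' he
  refine h2 w w' fun x y => ?_
  refine (and_congr_left' ⟨key w w' x y hw', key w' w x y hw⟩).trans (and_congr_right fun a => ?_)
  exact cls_sat rules_symm ((hT.eq_iff (key w' w x y hw a) a).1 (by simp only [T.ev_append, he]))

/-- the word of an element of the free semigroup -/
def lst {A : Type} (x : FreeSemigroup A) : List A := x.head :: x.tail

theorem lst_mul {A : Type} (x y : FreeSemigroup A) : lst (x * y) = lst x ++ lst y := rfl

/-- the inclusion of the idempotents -/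
def inc (e : Idem n) : Pt n := e.1

theorem inc_mul (e f : Idem n) : inc e * inc f = pmul e.1 f.1 := rfl

theorem inc_inj : Function.Injective (inc : Idem n → Pt n) := fun _ _ h => Subtype.ext h

theorem inc_idem (e : Pt n) : IsIdempotentElem e ↔ ∃ a, inc a = e :=
  ⟨fun h => ⟨⟨e, h⟩, rfl⟩, fun ⟨a, h⟩ => h ▸ a.2⟩

theorem eq_of_rel {x y : FreeSemigroup (Idem n)} (h : EqvGen (Rel inc) (lst x) (lst y)) :
    (x : IG n) = (y : IG n) := by
  let F : List (Idem n) → WithOne (IG n) := fun l =>
    (l.map fun e => (((FreeSemigroup.of e : FreeSemigroup (Idem n)) : IG n) : WithOne (IG n))).prod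
  have F1 : ∀ l l', F (l ++ l') = F l * F l' := fun l l' => by simp [F]
  have F2 : ∀ x : FreeSemigroup (Idem n), F (lst x) = ((x : IG n) : WithOne (IG n)) := by
    intro x
    induction x using FreeSemigroup.recOnMul with
    | ih1 e => exact mul_one _
    | ih2 e x h1 h2 => rw [lst_mul, F1, h1, h2, Con.coe_mul, WithOne.coe_mul]
  have F3 : F (lst x) = F (lst y) := by
    refine eqvGen_const ?_ h
    rintro _ _ ⟨u, v, a, b, c, h1, h2, rfl, rfl⟩
    have h3 : ((FreeSemigroup.of a * FreeSemigroup.of b : FreeSemigroup (Idem n)) : IG n) =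
        (FreeSemigroup.of c : FreeSemigroup (Idem n)) :=
      (Con.eq _).2 (ConGen.Rel.of _ _ ⟨a, b, c, h1, h2, rfl, rfl⟩)
    have h4 : F [a, b] = F [c] := (F2 (FreeSemigroup.of a * FreeSemigroup.of b)).trans
      ((congrArg _ h3).trans (F2 (FreeSemigroup.of c)).symm)
    rw [F1, F1, F1, F1, h4]
  rw [F2, F2] at F3
  exact WithOne.coe_inj.1 F3

theorem residually_finite (n : ℕ) (a b : IG n) (h : a ≠ b) :
    ∃ (F : Type) (_ : Semigroup F) (_ : Finite F) (φ : IG n →ₙ* F), φ a ≠ φ b := by
  obtain ⟨x, rfl⟩ := Quotient.exists_rep a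
  obtain ⟨y, rfl⟩ := Quotient.exists_rep b
  obtain ⟨F, i1, i2, φ, h1, h2, h3⟩ := sep_words (setup_pres inc_inj inc_idem)
    (idl_map inc_idem (lst x)) (idl_map inc_idem (lst y))
    fun h' => h (eq_of_rel ((setup_ev _ _ _ _).1 h'))
  have h4 : ∀ x y : FreeSemigroup (Idem n),
      φ ((lst (x * y)).map inc) = φ ((lst x).map inc) * φ ((lst y).map inc) := fun x y => by
    rw [lst_mul, List.map_append, h1]
  have h5 : ∀ x y : FreeSemigroup (Idem n), ConGen.Rel (BasicRel n) x y →
      φ ((lst x).map inc) = φ ((lst y).map inc) := by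
    intro x y hxy
    induction hxy with
    | of x y hxy =>
      obtain ⟨e, f, g, a1, a2, rfl, rfl⟩ := hxy
      exact h2 _ _ (idl_map inc_idem _) (idl_map inc_idem _) ((setup_ev _ _ _ _).2
        (EqvGen.rel _ _ ⟨[], [], e, f, g, a1, a2, rfl, rfl⟩))
    | refl => rfl
    | symm _ ih => exact ih.symm
    | trans _ _ ih1 ih2 => exact ih1.trans ih2
    | mul _ _ ih1 ih2 => rw [h4, h4, ih1, ih2]
  refine ⟨F, inferInstance, i2, ⟨Quotient.lift (fun x => φ ((lst x).map inc)) h5, ?_⟩, h3⟩
  rintro ⟨x⟩ ⟨y⟩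
  exact h4 x y

end Pool.Agent.Work.MP_5b5e81_al.Hedge
end
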